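import Pool.Agent.R30B.Stmts

/-!
# Squad R30B, row ZRO: runs of zeros in a period
-/

set_option autoImplicit false

namespace Pool.Agent.R30B.H65

open Pool.Agent.H21R30

theorem zro_bound (zer : ZerStmt) (r : ℕ) : ∃ S : ℕ, ∀ r', 1 ≤ r' → r' ≤ r → ∀ s, S ≤ s →
    ∀ D, Dia D → (∀ t, D (t + (s + r')) 0 = D t 0) → (∀ t < s, D t 0 = false) → D s 0 = true →
      D (s + r' - 1) 0 = true → ∃ N, ∀ t, N ≤ t → D (t + (s + r')) 1 = D t 1 := by
  induction r with
  | zero =>
    refine ⟨0, fun r' h1 h2 => ?_⟩
    omega
  | succ r ih =>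
    obtain ⟨S, hS⟩ := ih
    obtain ⟨S', hS'⟩ := zer (r + 1) (by omega)
    refine ⟨S + S', fun r' h1 h2 s hs => ?_⟩
    rcases Nat.lt_or_ge r r' with h | h
    · have : r' = r + 1 := by omega
      subst this
      exact hS' s (by omega)
    · exact hS r' h1 h s (by omega)

theorem zro_mono {a : ℕ → Bool} {T : ℕ} (h : ∀ t, T ≤ t → a t = true → a (t + 1) = true) :
    EvPeriodic a := by
  by_cases hb : ∃ t, T ≤ t ∧ a t = true
  · obtain ⟨b, hb1, hb2⟩ := hb
    have h1 : ∀ m, a (b + m) = true := by
      intro m
      induction m with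
      | zero => exact hb2
      | succ m ih => exact h (b + m) (by omega) ih
    refine ⟨1, b, one_pos, fun t ht => ?_⟩
    obtain ⟨m, rfl⟩ : ∃ m, t = b + m := ⟨t - b, by omega⟩
    rw [h1 m, Nat.add_assoc, h1 (m + 1)]
  · push Not at hb
    refine ⟨1, T, one_pos, fun t ht => ?_⟩
    have e1 : a t = false := by
      have := hb t ht
      simpa using this
    have e2 : a (t + 1) = false := by
      have := hb (t + 1) (by omega)
      simpa using this
    rw [e1, e2]

/-- ZRO. -/
theorem zro (zer : ZerStmt) (_wht : WhtStmt) : ZroStmt := by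
  intro r
  obtain ⟨S, hS⟩ := zro_bound zer r
  refine ⟨S, ?_⟩
  intro c l h0 h1 i p N t₀ s hp hper hN hs hpr hw
  have hcol : EvPeriodic (fun t => cell c t i) := ⟨p, N, hp, hper⟩
  by_cases hb : ∃ t, t₀ ≤ t ∧ cell c t i = true
  · obtain ⟨b, hb1, hb2⟩ := hb
    have hmul : ∀ m t, N ≤ t → cell c (t + m * p) i = cell c t i := by
      intro m
      induction m with
      | zero => intro t _; simp
      | succ m ih =>
        intro t ht
        have e : t + (m + 1) * p = (t + m * p) + p := by ring
        rw [e, hper _ (by have := Nat.zero_le (m * p); omega), ih t ht]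
    have hblack : ∀ u, t₀ ≤ u → ∃ t, u ≤ t ∧ t < u + p ∧ cell c t i = true := by
      intro u hu
      by_contra hcon
      push Not at hcon
      have hall : ∀ t, u ≤ t → cell c t i ≠ true := by
        intro t
        induction t using Nat.strong_induction_on with
        | _ t ih =>
          intro ht
          rcases Nat.lt_or_ge t (u + p) with h | h
          · exact hcon t ht h
          · have e : t = (t - p) + p := by omega
            rw [e, hper (t - p) (by omega)]
            exact ih (t - p) (by omega) (by omega)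
      refine hall (b + u * p) ?_ ?_
      · have : u ≤ u * p := Nat.le_mul_of_pos_right u hp
        omega
      · rw [hmul u b (by omega), hb2]
    -- the first black time `e ≥ t₀ + p`
    have hex : ∃ t, t₀ + p ≤ t ∧ cell c t i = true := by
      obtain ⟨t, ht1, -, ht2⟩ := hblack (t₀ + p) (by omega)
      exact ⟨t, ht1, ht2⟩
    obtain ⟨e, ⟨he1, he2⟩, he3⟩ : ∃ e, (t₀ + p ≤ e ∧ cell c e i = true) ∧
        ∀ t, t₀ + p ≤ t → t < e → cell c t i = false := by
      classical
      refine ⟨Nat.find hex, Nat.find_spec hex, fun t ht1 ht2 => ?_⟩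
      have h2 := Nat.find_min hex ht2
      by_contra h3
      exact h2 ⟨ht1, by simpa using h3⟩
    -- the last black time `a < t₀ + p`
    have hexd : ∃ d, d < p ∧ cell c (t₀ + p - 1 - d) i = true := by
      obtain ⟨t, ht1, ht2, ht3⟩ := hblack t₀ le_rfl
      refine ⟨t₀ + p - 1 - t, by omega, ?_⟩
      have e1 : t₀ + p - 1 - (t₀ + p - 1 - t) = t := by omega
      rw [e1, ht3]
    obtain ⟨d, ⟨hd1, hd2⟩, hd3⟩ : ∃ d, (d < p ∧ cell c (t₀ + p - 1 - d) i = true) ∧
        ∀ d' < d, cell c (t₀ + p - 1 - d') i = false := by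
      classical
      refine ⟨Nat.find hexd, Nat.find_spec hexd, fun d' hd' => ?_⟩
      have h2 := Nat.find_min hexd hd'
      by_contra h3
      exact h2 ⟨by have := (Nat.find_spec hexd).1; omega, by simpa using h3⟩
    obtain ⟨a, ha⟩ : ∃ a, a = t₀ + p - 1 - d := ⟨_, rfl⟩
    rw [← ha] at hd2
    have ha1 : t₀ + s ≤ a := by
      by_contra h
      rw [hw a (by omega) (by omega)] at hd2
      exact Bool.false_ne_true hd2
    have hes : t₀ + p + s ≤ e := by
      by_contra h
      have h2 : cell c e i = false := by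
        have e1 : e = (e - p) + p := by omega
        rw [e1, hper (e - p) (by omega)]
        exact hw (e - p) (by omega) (by omega)
      rw [h2] at he2
      exact Bool.false_ne_true he2
    have hwhite : ∀ t, a + 1 ≤ t → t < e → cell c t i = false := by
      intro t ht1 ht2
      rcases Nat.lt_or_ge t (t₀ + p) with h | h
      · have e1 : t = t₀ + p - 1 - (t₀ + p - 1 - t) := by omega
        rw [e1]
        exact hd3 _ (by omega)
      · exact he3 t h ht2
    have hap : e ≤ a + p := by
      by_contra h
      have h2 := he3 (a + p) (by omega) (by omega)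
      rw [hper a (by omega), hd2] at h2
      exact Bool.false_ne_true h2.symm
    obtain ⟨s', hs'⟩ : ∃ s', s' = e - (a + 1) := ⟨_, rfl⟩
    obtain ⟨r', hr'⟩ : ∃ r', r' = p - s' := ⟨_, rfl⟩
    have hps : s' + r' = p := by omega
    obtain ⟨N', hN'⟩ := hS r' (by omega) (by omega) s' (by omega)
      (fun t k => cell c (a + 1 + t) (i + k)) (by
        intro t k
        have e1 : a + 1 + (t + 1) = (a + 1 + t) + 1 := by omega
        have e2 : i + ((k + 1 : ℕ) : ℤ) - 1 = i + (k : ℤ) := by push_cast; ring
        have e3 : i + ((k + 1 : ℕ) : ℤ) + 1 = i + ((k + 2 : ℕ) : ℤ) := by push_cast; ring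
        show cell c (a + 1 + (t + 1)) (i + ((k + 1 : ℕ) : ℤ)) = _
        rw [e1, cell_succ, e2, e3])
      (by
        intro t
        show cell c (a + 1 + (t + (s' + r'))) (i + ((0 : ℕ) : ℤ)) =
          cell c (a + 1 + t) (i + ((0 : ℕ) : ℤ))
        rw [hps, Nat.cast_zero, add_zero, ← Nat.add_assoc]
        exact hper _ (by omega))
      (by
        intro t ht
        show cell c (a + 1 + t) (i + ((0 : ℕ) : ℤ)) = false
        rw [Nat.cast_zero, add_zero]
        exact hwhite _ (by omega) (by omega))
      (by
        show cell c (a + 1 + s') (i + ((0 : ℕ) : ℤ)) = true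
        rw [Nat.cast_zero, add_zero]
        have e1 : a + 1 + s' = e := by omega
        rw [e1, he2])
      (by
        show cell c (a + 1 + (s' + r' - 1)) (i + ((0 : ℕ) : ℤ)) = true
        rw [Nat.cast_zero, add_zero]
        have e1 : a + 1 + (s' + r' - 1) = a + p := by omega
        rw [e1, hper a (by omega), hd2])
    refine ev_of_two c l h0 h1 i (i + 1) (by linarith) hcol ⟨p, a + 1 + N', hp, fun t ht => ?_⟩
    have h3 := hN' (t - (a + 1)) (by omega)
    have e1 : a + 1 + (t - (a + 1) + (s' + r')) = t + p := by omega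
    have e2 : a + 1 + (t - (a + 1)) = t := by omega
    simp only [e1, e2, Nat.cast_one] at h3
    exact h3
  · push Not at hb
    refine ev_of_two c l h0 h1 i (i + 1) (by linarith) hcol (zro_mono (T := t₀) ?_)
    intro t ht h2
    have e1 : cell c t i = false := by
      have := hb t ht
      simpa using this
    have e2 : i + 1 - 1 = i := by ring
    show cell c (t + 1) (i + 1) = true
    have h2' : cell c t (i + 1) = true := h2
    rw [cell_succ, e2, e1, h2']
    simp

end Pool.Agent.R30B.H65
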